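import Mathlib

set_option autoImplicit false

/-!
The multiplicative group of an algebraic closure of `ZMod p` embeds in the multiplicative group of
the complex numbers (Teichmüller representatives).
-/

namespace Pool.Agent.W447.UT

open Cardinal

theorem exists_lift (p : ℕ) [Fact p.Prime] :
    ∃ θ : (AlgebraicClosure (ZMod p))ˣ →* ℂˣ, Function.Injective θ := by
  set k := AlgebraicClosure (ZMod p) with hk
  have : CharP k p := charP_of_injective_algebraMap (algebraMap (ZMod p) k).injective p
  let W := WittVector p k
  have hdom : IsDomain W := inferInstance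
  -- characteristic zero
  have hpW : (p : W) ≠ 0 := WittVector.p_nonzero p k
  have hchar : CharZero W := by
    obtain ⟨q, hq⟩ := CharP.exists W
    rcases CharP.char_is_prime_or_zero W q with h | h
    · exfalso
      have h1 : ((q : ℕ) : W) = 0 := CharP.cast_eq_zero W q
      have h2 : ((q : ℕ) : k) = 0 := by
        have := congrArg (WittVector.constantCoeff : WittVector p k →+* k) h1
        rw [map_natCast, map_zero] at this
        exact this
      have h3 : p ∣ q := (CharP.cast_eq_zero_iff k p q).1 h2
      have h4 : p = q := (Nat.prime_dvd_prime_iff_eq (Fact.out) h).1 h3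
      rw [← h4] at h1
      exact hpW h1
    · subst h
      exact CharP.charP_to_charZero W
  let Q := FractionRing W
  have : CharZero Q := charZero_of_injective_algebraMap (IsFractionRing.injective W Q)
  let L := AlgebraicClosure Q
  have : CharZero L := charZero_of_injective_algebraMap (algebraMap Q L).injective
  -- cardinality
  have hkc : #k = ℵ₀ := by
    apply le_antisymm
    · have h1 := Algebra.IsAlgebraic.cardinalMk_le_max (ZMod p) k
      refine h1.trans ?_
      rw [max_le_iff]
      exact ⟨(Cardinal.lt_aleph0_of_finite _).le, le_rfl⟩
    · have : Infinite k := IsAlgClosed.instInfinite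
      exact Cardinal.aleph0_le_mk k
  have hWc : #W = 𝔠 := by
    have e : W ≃ (ℕ → k) := ⟨fun x => x.coeff, fun f => WittVector.mk p f,
      fun x => by cases x; rfl, fun f => rfl⟩
    rw [Cardinal.mk_congr e]
    simp [hkc]
  have hQc : #Q = 𝔠 := by rw [Cardinal.mk_fractionRing, hWc]
  have hLc : #L = 𝔠 := by
    apply le_antisymm
    · have h1 := Algebra.IsAlgebraic.cardinalMk_le_max Q L
      rw [hQc] at h1
      refine h1.trans ?_
      rw [max_le_iff]
      exact ⟨le_rfl, Cardinal.aleph0_lt_continuum.le⟩
    · rw [← hQc]
      exact Cardinal.mk_le_of_injective (algebraMap Q L).injective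
  obtain ⟨e⟩ := IsAlgClosed.ringEquiv_of_equiv_of_charZero (K := L) (L := ℂ)
    (by rw [hLc]; exact Cardinal.aleph0_lt_continuum)
    (Cardinal.eq.1 (by rw [hLc, Cardinal.mk_complex]))
  let f : W →+* ℂ := (e : L →+* ℂ).comp ((algebraMap Q L).comp (algebraMap W Q))
  have hf : Function.Injective f :=
    e.injective.comp ((algebraMap Q L).injective.comp (IsFractionRing.injective W Q))
  let τ : k →* ℂ := (f : W →* ℂ).comp (WittVector.teichmuller p)
  have hτ : Function.Injective τ := by
    intro a b hab
    have h1 : WittVector.teichmuller p a = WittVector.teichmuller p b := hf hab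
    have h2 := congrArg (fun x : W => x.coeff 0) h1
    simpa [WittVector.teichmuller_coeff_zero] using h2
  refine ⟨Units.map τ, ?_⟩
  intro a b hab
  apply Units.ext
  exact hτ (congrArg Units.val hab)

end Pool.Agent.W447.UT
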