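import Mathlib

set_option autoImplicit false

/-!
Ordinary and Brauer characters of a finite group, decomposition numbers, blocks, and unitriangular
decomposition matrices.
-/

namespace Pool.Agent.W447.UT

/-- The `ℓ`-regular elements of a group. -/
abbrev Reg (ℓ : ℕ) (G : Type) [Group G] : Type := {g : G // ¬ ℓ ∣ orderOf g}

/-- The ordinary irreducible characters of `G`: the characters of the irreducible complex
representations. -/
def Irr (G : Type) [Group G] : Set (G → ℂ) :=
  {χ | ∃ (n : ℕ) (ρ : Representation ℂ G (Fin n → ℂ)), ρ.IsIrreducible ∧ χ = ρ.character}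

open Classical in
/-- The Brauer character of a representation over a field `k` of characteristic `ℓ`, with respect
to a homomorphism `θ` from the multiplicative group of `k` to that of `ℂ`: the value at an
`ℓ`-regular element `g` is the sum of the complex numbers `θ a`, where `a` runs over the eigenvalues
of `g` with multiplicities. -/
noncomputable def brauer (ℓ : ℕ) {G : Type} [Group G] {k : Type} [Field k] (θ : kˣ →* ℂˣ) {n : ℕ}
    (ρ : Representation k G (Fin n → k)) : Reg ℓ G → ℂ :=
  fun g => ((LinearMap.charpoly (ρ g.1)).roots.map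
    (fun a => if h : a = 0 then (0 : ℂ) else ((θ (Units.mk0 a h) : ℂˣ) : ℂ))).sum

/-- The irreducible Brauer characters of `G`. -/
def IBr (ℓ : ℕ) (G : Type) [Group G] {k : Type} [Field k] (θ : kˣ →* ℂˣ) : Set (Reg ℓ G → ℂ) :=
  {φ | ∃ (n : ℕ) (ρ : Representation k G (Fin n → k)), ρ.IsIrreducible ∧ φ = brauer ℓ θ ρ}

section

variable (ℓ : ℕ) {G : Type} [Group G] {k : Type} [Field k] (θ : kˣ →* ℂˣ)

/-- The restriction of `χ` to the `ℓ`-regular elements is the combination of the irreducible Brauer
characters with coefficients `c`. -/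
def IsDec (χ : G → ℂ) (c : IBr ℓ G θ →₀ ℕ) : Prop :=
  ∀ g : Reg ℓ G, χ g.1 = c.sum (fun φ m => (m : ℂ) * φ.1 g)

open Classical in
/-- The decomposition number of `χ` and `φ`: the coefficient of `φ` in the expression of the
restriction of `χ` to the `ℓ`-regular elements as a combination of irreducible Brauer characters
(the expression exists and is unique by Brauer's theorems). -/
noncomputable def dec (χ : Irr G) (φ : IBr ℓ G θ) : ℕ :=
  if h : ∃ c, IsDec ℓ θ χ.1 c then (Classical.choose h) φ else 0

/-- `χ` and `φ` are linked if their decomposition number is not zero. -/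
inductive Linked : Irr G ⊕ IBr ℓ G θ → Irr G ⊕ IBr ℓ G θ → Prop
  | mk (χ : Irr G) (φ : IBr ℓ G θ) (h : dec ℓ θ χ φ ≠ 0) : Linked (Sum.inl χ) (Sum.inr φ)

/-- A block, given by its ordinary and its Brauer characters: a connected component of the graph
on all ordinary and Brauer irreducible characters with the edges of `Linked`. -/
def IsBlock (I : Set (Irr G)) (J : Set (IBr ℓ G θ)) : Prop :=
  ∃ x : Irr G ⊕ IBr ℓ G θ, I = {χ | Relation.EqvGen (Linked ℓ θ) x (Sum.inl χ)} ∧
    J = {φ | Relation.EqvGen (Linked ℓ θ) x (Sum.inr φ)}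

/-- The decomposition matrix of the block `(I, J)` is unitriangular: there are pairwise different
`χ_1, ..., χ_n` in `I` and an enumeration `φ_1, ..., φ_n` of `J` such that the decomposition number
of `χ_i` and `φ_i` is one and that of `χ_i` and `φ_j` is zero for `i < j`. -/
def Unitriangular (I : Set (Irr G)) (J : Set (IBr ℓ G θ)) : Prop :=
  ∃ (n : ℕ) (χ : Fin n → Irr G) (φ : Fin n → IBr ℓ G θ),
    Function.Injective χ ∧ (∀ i, χ i ∈ I) ∧ Function.Injective φ ∧ Set.range φ = J ∧
    (∀ i, dec ℓ θ (χ i) (φ i) = 1) ∧ ∀ i j, i < j → dec ℓ θ (χ i) (φ j) = 0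

end

end Pool.Agent.W447.UT
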