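import Pool.Agent.W447.UT.Mod

set_option autoImplicit false

/-!
The dimension of an irreducible representation of `SL(2, 9)` in characteristic three on which `-1`
acts as `-1`.
-/

namespace Pool.Agent.W447.UT

open Matrix Finset

variable {F : Type} [Field F] {K V : Type*} [Field K] [AddCommGroup V] [Module K V]

/-- lower unipotent elements -/
def l (b : F) : SL F := ⟨!![1, 0; b, 1], by simp [Matrix.det_fin_two]⟩

theorem sum_pow_units' [Fintype F] [DecidableEq F] (hF : Fintype.card F = 9) (σ : F →+* K)
    (n : ℕ) : ∑ t : Fˣ, σ t ^ n = if 8 ∣ n then -1 else 0 := by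
  have h1 := FiniteField.sum_pow_units F n
  have h2 := congrArg σ h1
  rw [map_sum, hF] at h2
  simp only [map_pow] at h2
  rw [h2]
  split_ifs <;> simp

/-- the monomials in the entries of the lower row -/
def mon (σ : F →+* K) (r i : ℕ) : SL F → K := fun g => σ (g 1 0) ^ i * σ (g 1 1) ^ (r - i)

theorem mon_indep [Fintype F] [DecidableEq F] (hF : Fintype.card F = 9) (σ : F →+* K) (r : ℕ)
    (hr : r ≤ 7) (I : Finset ℕ) (hI : ∀ i ∈ I, i ≤ r) :
    LinearIndependent K (fun i : I => mon (F := F) σ r i) := by
  rw [Fintype.linearIndependent_iff]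
  intro a ha j
  have h1 : ∀ t : Fˣ, ∑ i : I, a i * σ t ^ (i : ℕ) = 0 := by
    intro t
    have h2 := congrFun ha (l (t : F))
    rw [Finset.sum_apply, Pi.zero_apply] at h2
    rw [← h2]
    apply Finset.sum_congr rfl
    intro i _
    have h5 : (a i • mon (F := F) σ r i) (l (t : F)) =
        a i * (σ (t : F) ^ (i : ℕ) * σ (1 : F) ^ (r - i)) := rfl
    rw [h5, map_one, one_pow, mul_one]
  have hj : (j : ℕ) ≤ 7 := (hI j j.2).trans hr
  have h2 : ∑ t : Fˣ, σ t ^ (8 - (j : ℕ)) * ∑ i : I, a i * σ t ^ (i : ℕ) = 0 := by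
    apply Finset.sum_eq_zero
    intro t _
    rw [h1, mul_zero]
  simp only [Finset.mul_sum] at h2
  rw [Finset.sum_comm] at h2
  have h3 : ∀ i : I, ∑ t : Fˣ, σ (t : F) ^ (8 - (j : ℕ)) * (a i * σ t ^ (i : ℕ)) =
      if i = j then -a j else 0 := by
    intro i
    have hi : (i : ℕ) ≤ 7 := (hI i i.2).trans hr
    have h4 : ∀ t : Fˣ, σ (t : F) ^ (8 - (j : ℕ)) * (a i * σ t ^ (i : ℕ)) =
        a i * σ t ^ (8 - (j : ℕ) + i) := by
      intro t
      rw [pow_add]
      ring
    simp only [h4]
    rw [← Finset.mul_sum, sum_pow_units' hF]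
    by_cases hij : i = j
    · subst hij
      rw [if_pos rfl, if_pos]
      · ring
      · have : 8 - (i : ℕ) + i = 8 := by omega
        rw [this]
    · rw [if_neg hij, if_neg, mul_zero]
      intro hd
      apply hij
      apply Subtype.ext
      omega
  simp only [h3] at h2
  rw [Finset.sum_ite_eq' Finset.univ j, if_pos (Finset.mem_univ j)] at h2
  exact neg_eq_zero.1 h2

theorem finrank_eq [Fintype F] [DecidableEq F] (hF : Fintype.card F = 9) (σ : F →+* K)
    (ρ : Representation K (SL F) V)
    (hirr : ∀ W : Submodule K V, (∀ g, ∀ y ∈ W, ρ g y ∈ W) → W = ⊥ ∨ W = ⊤)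
    (x : V) (ξ : V →ₗ[K] K) (κ : K) (hκ : κ ≠ 0) (r : ℕ) (hr : r ≤ 7)
    (hval : ∀ g : SL F, ξ (ρ g x) = κ * σ (g 1 0) ^ r) (I : Finset ℕ)
    (hI : ∀ i, i ∈ I ↔ i ≤ r ∧ ((r.choose i : ℕ) : K) ≠ 0) :
    Module.finrank K V = I.card := by
  classical
  let Φ : V →ₗ[K] (SL F → K) := LinearMap.pi (fun g => ξ ∘ₗ ρ g)
  have hΦ : ∀ y g, Φ y g = ξ (ρ g y) := fun y g => rfl
  have hxw : Φ x w ≠ 0 := by
    rw [hΦ, hval]
    apply mul_ne_zero hκ
    apply pow_ne_zero
    simp
  have hx : x ≠ 0 := by
    rintro rfl
    apply hxw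
    rw [map_zero]
    rfl
  have hker : LinearMap.ker Φ = ⊥ := by
    rcases hirr (LinearMap.ker Φ) (by
      intro g y hy
      rw [LinearMap.mem_ker] at hy ⊢
      funext g'
      rw [hΦ, ← Module.End.mul_apply, ← map_mul, ← hΦ, hy]
      rfl) with h1 | h1
    · exact h1
    · exfalso
      have : x ∈ LinearMap.ker Φ := by rw [h1]; trivial
      rw [LinearMap.mem_ker] at this
      apply hxw
      rw [this]
      rfl
  have hspan : Submodule.span K (Set.range fun g => ρ g x) = ⊤ := by
    rcases hirr (Submodule.span K (Set.range fun g => ρ g x)) (by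
      intro g y hy
      induction hy using Submodule.span_induction with
      | mem y hy =>
        obtain ⟨g', rfl⟩ := hy
        apply Submodule.subset_span
        refine ⟨g * g', ?_⟩
        change ρ (g * g') x = _
        rw [map_mul, Module.End.mul_apply]
      | zero => rw [map_zero]; exact Submodule.zero_mem _
      | add a b _ _ ha hb => rw [map_add]; exact Submodule.add_mem _ ha hb
      | smul a y _ hy => rw [map_smul]; exact Submodule.smul_mem _ _ hy) with h1 | h1
    · exfalso
      have : x ∈ Submodule.span K (Set.range fun g => ρ g x) := by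
        apply Submodule.subset_span
        exact ⟨1, by simp⟩
      rw [h1, Submodule.mem_bot] at this
      exact hx this
    · exact h1
  have hexp : ∀ g : SL F, Φ (ρ g x) = ∑ i ∈ range (r + 1),
      (κ * (r.choose i : K) * σ (g 0 0) ^ i * σ (g 1 0) ^ (r - i)) • mon (F := F) σ r i := by
    intro g
    funext g'
    rw [hΦ, ← Module.End.mul_apply, ← map_mul, hval, Finset.sum_apply]
    have h1 : (g' * g) 1 0 = g' 1 0 * g 0 0 + g' 1 1 * g 1 0 := by
      simp [Matrix.mul_apply, Fin.sum_univ_two]
    rw [h1, map_add, map_mul, map_mul, add_pow, Finset.mul_sum]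
    apply Finset.sum_congr rfl
    intro i _
    simp only [Pi.smul_apply, smul_eq_mul, mon]
    rw [mul_pow, mul_pow]
    ring
  have hrange : LinearMap.range Φ =
      Submodule.span K (Set.range fun i : I => mon (F := F) σ r i) := by
    apply le_antisymm
    · rw [LinearMap.range_eq_map, ← hspan, Submodule.map_span, Submodule.span_le]
      rintro _ ⟨_, ⟨g, rfl⟩, rfl⟩
      change Φ (ρ g x) ∈ _
      rw [hexp]
      apply Submodule.sum_mem
      intro i hi
      by_cases hc : ((r.choose i : ℕ) : K) = 0
      · rw [hc]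
        simp
      · apply Submodule.smul_mem
        apply Submodule.subset_span
        exact ⟨⟨i, (hI i).2 ⟨Nat.lt_succ_iff.1 (mem_range.1 hi), hc⟩⟩, rfl⟩
    · rw [Submodule.span_le]
      rintro _ ⟨⟨j, hj⟩, rfl⟩
      have hj' := (hI j).1 hj
      have hjr := hj'.1
      have hc : κ * ((r.choose j : ℕ) : K) ≠ 0 := mul_ne_zero hκ hj'.2
      have h1 : ∑ t : Fˣ, σ (t : F) ^ (8 - (r - j)) • Φ (ρ (l (t : F)) x) =
          (-(κ * ((r.choose j : ℕ) : K))) • mon (F := F) σ r j := by
        simp only [hexp, Finset.smul_sum]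
        rw [Finset.sum_comm]
        rw [Finset.sum_eq_single j]
        · simp only [smul_smul]
          rw [← Finset.sum_smul]
          congr 1
          have h2 : ∀ t : Fˣ, σ (t : F) ^ (8 - (r - j)) * (κ * (r.choose j : K) *
              σ ((l (t : F)) 0 0) ^ j * σ ((l (t : F)) 1 0) ^ (r - j)) =
              (κ * (r.choose j : K)) * σ (t : F) ^ 8 := by
            intro t
            have h3 : σ (t : F) ^ 8 = σ (t : F) ^ (8 - (r - j)) * σ (t : F) ^ (r - j) := by
              rw [← pow_add]
              congr 1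
              omega
            rw [h3]
            simp [l]
            ring
          simp only [h2]
          rw [← Finset.mul_sum, sum_pow_units' hF, if_pos (dvd_refl 8)]
          ring
        · intro i hi hij
          have hi' : i ≤ r := Nat.lt_succ_iff.1 (mem_range.1 hi)
          simp only [smul_smul]
          rw [← Finset.sum_smul]
          have h2 : ∀ t : Fˣ, σ (t : F) ^ (8 - (r - j)) * (κ * (r.choose i : K) *
              σ ((l (t : F)) 0 0) ^ i * σ ((l (t : F)) 1 0) ^ (r - i)) =
              (κ * (r.choose i : K)) * σ (t : F) ^ (8 + j - i) := by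
            intro t
            have h3 : σ (t : F) ^ (8 + j - i) = σ (t : F) ^ (8 - (r - j)) *
                σ (t : F) ^ (r - i) := by
              rw [← pow_add]
              congr 1
              omega
            rw [h3]
            simp [l]
            ring
          simp only [h2]
          rw [← Finset.mul_sum, sum_pow_units' hF, if_neg, mul_zero, zero_smul]
          omega
        · intro hj2
          exact absurd (mem_range.2 (Nat.lt_succ_iff.2 hjr)) hj2
      have h2 : mon (F := F) σ r j = (-(κ * ((r.choose j : ℕ) : K)))⁻¹ •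
          ∑ t : Fˣ, σ (t : F) ^ (8 - (r - j)) • Φ (ρ (l (t : F)) x) := by
        rw [h1, smul_smul, inv_mul_cancel₀ (neg_ne_zero.2 hc), one_smul]
      change mon (F := F) σ r j ∈ LinearMap.range Φ
      rw [h2]
      apply Submodule.smul_mem
      apply Submodule.sum_mem
      intro t _
      apply Submodule.smul_mem
      exact LinearMap.mem_range_self _ _
  have h1 : Module.finrank K V = Module.finrank K (LinearMap.range Φ) :=
    (LinearEquiv.ofInjective Φ (LinearMap.ker_eq_bot.1 hker)).finrank_eq
  rw [h1, hrange, finrank_span_eq_card (mon_indep hF σ r hr I (fun i hi => ((hI i).1 hi).1)),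
    Fintype.card_coe]

end Pool.Agent.W447.UT
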