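import Pool.Agent.W447.UT.Main

set_option autoImplicit false

/-!
Representations of `SL(2, 9)` in characteristic zero on which `-1` acts as `-1`: the dimension is
at least ten or divisible by four.
-/

namespace Pool.Agent.W447.UT

open Matrix Finset

variable {F : Type} [Field F] {K V : Type*} [Field K] [AddCommGroup V] [Module K V]

/-- an invariant functional dual to a `U`-fixed torus eigenvector -/
theorem exists_functional [Fintype F] [DecidableEq F] [CharZero K]
    (ρ : Representation K (SL F) V) (μ : Fˣ →* Kˣ) (x : V) (hx : x ≠ 0)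
    (hu : ∀ b, ρ (u b) x = x) (ht : ∀ t, ρ (h t) x = (μ t : K) • x) :
    ∃ ξ : V →ₗ[K] K, Pair ρ μ μ x ξ ∧ ξ x ≠ 0 := by
  obtain ⟨ξ₀, hξ₀⟩ : ∃ ξ₀ : Module.Dual K V, ξ₀ x ≠ 0 := by
    by_contra hcon
    push Not at hcon
    exact hx ((Module.forall_dual_apply_eq_zero_iff K x).1 hcon)
  let ξ : V →ₗ[K] K := ∑ t : Fˣ, ∑ b : F, ((μ t)⁻¹ : Kˣ).val • (ξ₀ ∘ₗ ρ (h t * u b))
  have hξ : ∀ y, ξ y = ∑ t : Fˣ, ∑ b : F, ((μ t)⁻¹ : Kˣ).val * ξ₀ (ρ (h t * u b) y) := by
    intro y
    simp only [ξ, LinearMap.sum_apply, LinearMap.smul_apply, LinearMap.comp_apply, smul_eq_mul]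
  refine ⟨ξ, ⟨hu, ht, ?_, ?_⟩, ?_⟩
  · intro c y
    rw [hξ, hξ]
    apply Finset.sum_congr rfl
    intro t _
    refine Fintype.sum_equiv (Equiv.addRight c) _ _ ?_
    intro b
    rw [← Module.End.mul_apply, ← map_mul, mul_assoc, ← u_add]
    rfl
  · intro s y
    rw [hξ, hξ, Finset.mul_sum]
    refine Fintype.sum_equiv (Equiv.mulRight s) _ _ ?_
    intro t
    rw [Finset.mul_sum]
    have hb : ((s : F) ^ 2)⁻¹ ≠ 0 := inv_ne_zero (pow_ne_zero _ s.ne_zero)
    refine Fintype.sum_equiv (Equiv.mulLeft₀ (((s : F) ^ 2)⁻¹) hb) _ _ ?_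
    intro b
    have h1 : u b * h s = h s * u (((s : F) ^ 2)⁻¹ * b) := by
      rw [h_u, mul_inv_cancel_left₀ (pow_ne_zero _ s.ne_zero)]
    rw [← Module.End.mul_apply, ← map_mul, mul_assoc, h1, ← mul_assoc, ← h_mul]
    change _ = (μ s : K) * (((μ (t * s))⁻¹ : Kˣ).val *
      ξ₀ (ρ (h (t * s) * u (((s : F) ^ 2)⁻¹ * b)) y))
    rw [← mul_assoc, map_mul μ, _root_.mul_inv_rev, ← Units.val_mul, mul_inv_cancel_left]
  · rw [hξ]
    have h1 : ∀ (t : Fˣ) (b : F), ((μ t)⁻¹ : Kˣ).val * ξ₀ (ρ (h t * u b) x) = ξ₀ x := by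
      intro t b
      rw [map_mul, Module.End.mul_apply, hu, ht, map_smul, smul_eq_mul, ← mul_assoc,
        ← Units.val_mul, inv_mul_cancel, Units.val_one, one_mul]
    simp only [h1]
    rw [Finset.sum_const, Finset.sum_const, smul_smul, nsmul_eq_mul]
    apply mul_ne_zero _ hξ₀
    rw [Nat.cast_ne_zero]
    exact mul_ne_zero (Finset.card_ne_zero_of_mem (Finset.mem_univ (1 : Fˣ)))
      (Finset.card_ne_zero_of_mem (Finset.mem_univ (0 : F)))

/-- without `U`-fixed vectors the regular elements of the torus have trace zero -/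
theorem trace_zero [Fintype F] [CharZero K] [FiniteDimensional K V]
    (ρ : Representation K (SL F) V) (hno : ∀ x : V, (∀ b, ρ (u b) x = x) → x = 0)
    (t : Fˣ) (ht : ((t⁻¹ : Fˣ) : F) ^ 2 ≠ 1) : LinearMap.trace K V (ρ (h t)) = 0 := by
  classical
  have hE : ∑ b : F, ρ (u b) = 0 := by
    apply LinearMap.ext
    intro y
    rw [LinearMap.sum_apply, LinearMap.zero_apply]
    apply hno
    intro c
    rw [map_sum]
    refine Fintype.sum_equiv (Equiv.addLeft c) _ _ ?_
    intro b
    rw [← Module.End.mul_apply, ← map_mul, ← u_add]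
    rfl
  have h1 : ∑ s : F, LinearMap.trace K V (ρ (u s * h t * (u s)⁻¹)) = 0 := by
    have hb : ((t⁻¹ : Fˣ) : F) ^ 2 - 1 ≠ 0 := sub_ne_zero.2 ht
    have h2 : ∑ s : F, LinearMap.trace K V (ρ (u s * h t * (u s)⁻¹)) =
        ∑ b : F, LinearMap.trace K V (ρ (h t * u b)) := by
      refine Fintype.sum_equiv (Equiv.mulRight₀ (((t⁻¹ : Fˣ) : F) ^ 2 - 1) hb) _ _ ?_
      intro s
      rw [u_h_u]
      have : s * ((t⁻¹ : Fˣ) : F) ^ 2 - s = s * (((t⁻¹ : Fˣ) : F) ^ 2 - 1) := by ring
      rw [this]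
      rfl
    rw [h2, ← map_sum]
    simp only [map_mul]
    rw [← Finset.mul_sum, hE, mul_zero, map_zero]
  have h2 : ∀ s : F, LinearMap.trace K V (ρ (u s * h t * (u s)⁻¹)) =
      LinearMap.trace K V (ρ (h t)) := by
    intro s
    rw [map_mul ρ, LinearMap.trace_mul_comm, ← map_mul ρ, inv_mul_cancel_left]
  simp only [h2] at h1
  rw [Finset.sum_const, nsmul_eq_mul] at h1
  rcases mul_eq_zero.1 h1 with h3 | h3
  · exfalso
    rw [Nat.cast_eq_zero] at h3
    exact Finset.card_ne_zero_of_mem (Finset.mem_univ (0 : F)) h3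
  · exact h3

/-- an operator with `A ^ 4 = -1` all of whose powers `A, A ^ 2, A ^ 3` have trace zero -/
theorem four_dvd [CharZero K] [IsAlgClosed K] [FiniteDimensional K V] (A : V →ₗ[K] V)
    (h4 : A ^ 4 = -1) (h1 : LinearMap.trace K V A = 0) (h2 : LinearMap.trace K V (A ^ 2) = 0)
    (h3 : LinearMap.trace K V (A ^ 3) = 0) : 4 ∣ Module.finrank K V := by
  obtain ⟨a, ha⟩ := IsAlgClosed.exists_pow_nat_eq (-1 : K) (n := 4) (by norm_num)
  -- `a ^ 4 = -1`; the projection onto the eigenspace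
  obtain ⟨P, hP⟩ : ∃ P : V →ₗ[K] V, P = (4 : K)⁻¹ • (1 - a ^ 3 • A - a ^ 2 • A ^ 2 - a • A ^ 3) :=
    ⟨_, rfl⟩
  have hAP : A * P = a • P := by
    rw [hP, mul_smul_comm, smul_comm a]
    congr 1
    have e4 : A * A ^ 3 = -1 := by rw [← pow_succ', h4]
    have e3 : A * A ^ 2 = A ^ 3 := by rw [← pow_succ']
    have e2 : A * A = A ^ 2 := by rw [sq]
    rw [mul_sub, mul_sub, mul_sub, mul_one, mul_smul_comm, mul_smul_comm, mul_smul_comm, e4, e3,
      e2, smul_sub, smul_sub, smul_sub, smul_smul, smul_smul, smul_smul]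
    have f4 : a * a ^ 3 = -1 := by rw [← pow_succ', ha]
    have f3 : a * a ^ 2 = a ^ 3 := by ring
    have f2 : a * a = a ^ 2 := by ring
    rw [f4, f3, f2]
    module
  have hApow : ∀ n : ℕ, A ^ n * P = a ^ n • P := by
    intro n
    induction n with
    | zero => simp
    | succ n ih => rw [pow_succ, mul_assoc, hAP, mul_smul_comm, ih, smul_smul, pow_succ, mul_comm]
  have hidem : IsIdempotentElem P := by
    change P * P = P
    have e1 : P * P = (4 : K)⁻¹ • (P - a ^ 3 • (A * P) - a ^ 2 • (A ^ 2 * P) - a • (A ^ 3 * P)) := by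
      nth_rewrite 1 [hP]
      rw [smul_mul_assoc, sub_mul, sub_mul, sub_mul, one_mul, smul_mul_assoc, smul_mul_assoc,
        smul_mul_assoc]
    rw [e1, hAP, hApow, hApow, smul_smul, smul_smul, smul_smul]
    have f1 : a ^ 3 * a = -1 := by rw [← pow_succ, ha]
    have f2 : a ^ 2 * a ^ 2 = -1 := by rw [← pow_add, ha]
    have f3 : a * a ^ 3 = -1 := by rw [← pow_succ', ha]
    rw [f1, f2, f3]
    have : P - (-1 : K) • P - (-1 : K) • P - (-1 : K) • P = (4 : K) • P := by module
    rw [this, smul_smul, inv_mul_cancel₀ (by norm_num), one_smul]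
  have htr : LinearMap.trace K V P = (4 : K)⁻¹ * Module.finrank K V := by
    rw [hP]
    simp only [map_smul, map_sub, h1, h2, h3, mul_zero, sub_zero, LinearMap.trace_one,
      smul_eq_mul]
  have htr2 := ((LinearMap.isProj_range_iff_isIdempotentElem P).2 hidem).trace
  rw [htr] at htr2
  refine ⟨Module.finrank K (LinearMap.range P), ?_⟩
  have : (Module.finrank K V : K) = ((4 * Module.finrank K (LinearMap.range P) : ℕ) : K) := by
    push_cast
    rw [← htr2, ← mul_assoc, mul_inv_cancel₀ (by norm_num), one_mul]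
  exact_mod_cast this

/-- representations in characteristic zero on which `-1` acts as `-1` -/
theorem ord_finrank [Fintype F] [DecidableEq F] (hF : Fintype.card F = 9) (h2F : (2 : F) ≠ 0)
    [CharZero K] [IsAlgClosed K] [FiniteDimensional K V] (ρ : Representation K (SL F) V)
    (hz : ∀ y, ρ (-1) y = -y) : 10 ≤ Module.finrank K V ∨ 4 ∣ Module.finrank K V := by
  obtain ⟨s, hs⟩ := exists_fourth hF h2F
  by_cases hfix : ∃ x₀ : V, x₀ ≠ 0 ∧ ∀ b, ρ (u b) x₀ = x₀
  · left
    obtain ⟨x₀, hx₀, hx₁⟩ := hfix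
    obtain ⟨x, hx, μ, hu, ht⟩ := exists_weight ρ x₀ hx₀ hx₁
    obtain ⟨ξ, P, hξ⟩ := exists_functional ρ μ x hx hu ht
    have hμ : μ (-1) = -1 := by
      have h1 := ht (-1)
      rw [h_neg_one, hz, ← neg_one_smul K x] at h1
      apply Units.ext
      rw [Units.val_neg, Units.val_one]
      exact (smul_left_injective K hx h1).symm
    have hw : ξ (ρ w x) = 0 := by
      by_contra hw
      have h1 := P.weight_w hw s
      have h2 : μ s ^ 2 = 1 := by
        rw [sq]
        nth_rewrite 2 [h1]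
        rw [← map_mul, mul_inv_cancel, map_one]
      have h3 : μ (s ^ 4) = 1 := by
        rw [map_pow, show (4 : ℕ) = 2 * 2 from rfl, pow_mul, h2, one_pow]
      rw [hs, hμ] at h3
      have h4 := congrArg Units.val h3
      rw [Units.val_neg, Units.val_one] at h4
      have h5 : (2 : K) = 0 := by linear_combination -h4
      exact two_ne_zero h5
    have := P.card_lt hξ hw
    rw [hF] at this
    exact this
  · right
    have hno : ∀ x : V, (∀ b, ρ (u b) x = x) → x = 0 := by
      intro x hx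
      by_contra hx0
      exact hfix ⟨x, hx0, hx⟩
    have hs8 : (s : F) ^ 4 = -1 := by
      rw [← Units.val_pow_eq_pow_val, hs, Units.val_neg, Units.val_one]
    have hm1 : (-1 : F) ≠ 1 := by
      intro h
      apply h2F
      linear_combination -h
    have hpow : ∀ n : ℕ, (n = 1 ∨ n = 2 ∨ n = 3) → LinearMap.trace K V (ρ (h s) ^ n) = 0 := by
      intro n hn
      rw [← map_pow, ← h_pow]
      apply trace_zero ρ hno
      intro h1
      have h2 : ((s ^ n : Fˣ) : F) ^ 2 = 1 := by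
        have h3 : ((((s ^ n)⁻¹ : Fˣ) : F) * ((s ^ n : Fˣ) : F)) ^ 2 = 1 := by
          rw [← Units.val_mul, inv_mul_cancel, Units.val_one, one_pow]
        rw [mul_pow, h1, one_mul] at h3
        exact h3
      rw [Units.val_pow_eq_pow_val, ← pow_mul] at h2
      rcases hn with rfl | rfl | rfl
      · have h3 : (s : F) ^ 4 = 1 := by
          have : (s : F) ^ 4 = ((s : F) ^ (1 * 2)) ^ 2 := by ring
          rw [this, h2, one_pow]
        rw [hs8] at h3
        exact hm1 h3
      · have h3 : (s : F) ^ 4 = 1 := by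
          have : (s : F) ^ 4 = ((s : F) ^ (2 * 2)) := by ring
          rw [this, h2]
        rw [hs8] at h3
        exact hm1 h3
      · have h3 : ((s : F) ^ 4) ^ 3 = 1 := by
          have : ((s : F) ^ 4) ^ 3 = ((s : F) ^ (3 * 2)) ^ 2 := by ring
          rw [this, h2, one_pow]
        rw [hs8] at h3
        apply hm1
        linear_combination h3
    apply four_dvd (ρ (h s)) _ _ (hpow 2 (by simp)) (hpow 3 (by simp))
    · rw [← map_pow, ← h_pow, hs, h_neg_one]
      apply LinearMap.ext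
      intro y
      rw [hz]
      rfl
    · have := hpow 1 (by simp)
      rwa [pow_one] at this

end Pool.Agent.W447.UT
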