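import Pool.Agent.W447.UT.Defs
import Pool.Agent.W447.UT.Ord

set_option autoImplicit false

/-!
The faithful 3-block of `SL(2, 9)` does not have a unitriangular decomposition matrix.
-/

namespace Pool.Agent.W447.UT

open Matrix

section gen

variable {G K V : Type} [Group G] [Field K] [AddCommGroup V] [Module K V]

theorem irr_of_isIrreducible (ρ : Representation K G V) (hρ : ρ.IsIrreducible) :
    ∀ W : Submodule K V, (∀ g, ∀ y ∈ W, ρ g y ∈ W) → W = ⊥ ∨ W = ⊤ := by
  intro W hW
  rcases hρ.eq_bot_or_eq_top (⟨W, fun g v hv => hW g v hv⟩ : Subrepresentation ρ) with h | h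
  · left
    exact congrArg Subrepresentation.toSubmodule h
  · right
    exact congrArg Subrepresentation.toSubmodule h

theorem nontrivial_of_isIrreducible (ρ : Representation K G V) (hρ : ρ.IsIrreducible) :
    Nontrivial V := by
  by_contra hV
  rw [not_nontrivial_iff_subsingleton] at hV
  have h1 : (⊥ : Subrepresentation ρ) = ⊤ := by
    apply Subrepresentation.toSubmodule_injective
    exact Subsingleton.elim _ _
  exact bot_ne_top h1

/-- a central involution acts as a sign -/
theorem sign_of_irr (ρ : Representation K G V)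
    (hirr : ∀ W : Submodule K V, (∀ g, ∀ y ∈ W, ρ g y ∈ W) → W = ⊥ ∨ W = ⊤) (z : G)
    (hz : z * z = 1) (hc : ∀ g, z * g = g * z) : (∀ y, ρ z y = y) ∨ ∀ y, ρ z y = -y := by
  rcases hirr (LinearMap.ker (ρ z - 1)) (by
    intro g y hy
    rw [LinearMap.mem_ker, LinearMap.sub_apply, Module.End.one_apply, sub_eq_zero] at hy ⊢
    rw [← Module.End.mul_apply, ← map_mul, hc, map_mul, Module.End.mul_apply, hy]) with h | h
  · right
    intro y
    have h1 : ρ z y + y ∈ LinearMap.ker (ρ z - 1) := by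
      rw [LinearMap.mem_ker, LinearMap.sub_apply, Module.End.one_apply, map_add,
        ← Module.End.mul_apply, ← map_mul, hz, map_one, Module.End.one_apply]
      abel
    rw [h, Submodule.mem_bot] at h1
    exact eq_neg_of_add_eq_zero_left h1
  · left
    intro y
    have h1 : y ∈ LinearMap.ker (ρ z - 1) := by rw [h]; trivial
    rw [LinearMap.mem_ker, LinearMap.sub_apply, Module.End.one_apply, sub_eq_zero] at h1
    exact h1

end gen

/-- the charpoly of a scalar map -/
theorem charpoly_scalar {k : Type} [Field k] {n : ℕ} (f : (Fin n → k) →ₗ[k] (Fin n → k)) (a : k)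
    (hf : ∀ y, f y = a • y) : f.charpoly = (Polynomial.X - Polynomial.C a) ^ n := by
  have h1 : LinearMap.toMatrix (Pi.basisFun k (Fin n)) (Pi.basisFun k (Fin n)) f =
      Matrix.diagonal (fun _ => a) := by
    ext i j
    rw [LinearMap.toMatrix_apply, hf]
    by_cases hij : i = j
    · subst hij
      simp
    · simp [hij]
  rw [← LinearMap.charpoly_toMatrix f (Pi.basisFun k (Fin n)), h1, Matrix.charpoly_diagonal]
  simp

theorem brauer_scalar {ℓ : ℕ} {G : Type} [Group G] {k : Type} [Field k] (θ : kˣ →* ℂˣ) {n : ℕ}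
    (ρ : Representation k G (Fin n → k)) (g : Reg ℓ G) (a : kˣ)
    (hf : ∀ y, ρ g.1 y = (a : k) • y) : brauer ℓ θ ρ g = n * ((θ a : ℂˣ) : ℂ) := by
  unfold brauer
  rw [charpoly_scalar (ρ g.1) a hf, Polynomial.roots_pow, Polynomial.roots_X_sub_C]
  simp [Multiset.nsmul_singleton]

/-- the field with nine elements -/
abbrev F9 : Type := GaloisField 3 2

noncomputable instance : Fintype F9 := Fintype.ofFinite F9

theorem card_F9 : Fintype.card F9 = 9 := by
  rw [← Nat.card_eq_fintype_card, GaloisField.card 3 2 (by norm_num)]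
  norm_num

theorem neg_one_mul_neg_one : (-1 : SL F9) * -1 = 1 := by
  rw [neg_mul_neg, one_mul]

theorem reg_neg_one : ¬ 3 ∣ orderOf (-1 : SL F9) := by
  intro h
  have h1 : orderOf (-1 : SL F9) ∣ 2 := orderOf_dvd_of_pow_eq_one (by rw [sq, neg_one_mul_neg_one])
  have := h.trans h1
  omega

theorem reg_one : ¬ 3 ∣ orderOf (1 : SL F9) := by
  rw [orderOf_one]
  omega

/-- the central involution, as a regular element -/
noncomputable def rz : Reg 3 (SL F9) := ⟨-1, reg_neg_one⟩

/-- the identity, as a regular element -/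
noncomputable def re : Reg 3 (SL F9) := ⟨1, reg_one⟩

theorem center_comm (g : SL F9) : (-1 : SL F9) * g = g * -1 := by
  rw [neg_mul, one_mul, mul_neg, mul_one]

theorem ord_char (χ : Irr (SL F9)) : ∃ m : ℕ, 0 < m ∧ χ.1 1 = m ∧
    (χ.1 (-1) = m ∨ (χ.1 (-1) = -m ∧ (10 ≤ m ∨ 4 ∣ m))) := by
  obtain ⟨χ, n, ρ, hρ, rfl⟩ := χ
  have hirr := irr_of_isIrreducible ρ hρ
  have hnt := nontrivial_of_isIrreducible ρ hρ
  have hfin : Module.finrank ℂ (Fin n → ℂ) = n := by simp
  refine ⟨n, ?_, ?_, ?_⟩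
  · rw [← hfin]
    exact Module.finrank_pos
  · change ρ.character 1 = n
    rw [Representation.char_one, hfin]
  · change ρ.character (-1) = n ∨ (ρ.character (-1) = -n ∧ _)
    rcases sign_of_irr ρ hirr (-1) neg_one_mul_neg_one center_comm with h | h
    · left
      have h1 : ρ (-1) = LinearMap.id := LinearMap.ext h
      change LinearMap.trace ℂ _ (ρ (-1)) = n
      rw [h1, LinearMap.trace_id, hfin]
    · right
      constructor
      · have h1 : ρ (-1) = -LinearMap.id := LinearMap.ext h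
        change LinearMap.trace ℂ _ (ρ (-1)) = -n
        rw [h1, map_neg, LinearMap.trace_id, hfin]
      · have h2 : (2 : F9) ≠ 0 := two_ne_zero_of_char3
        classical
        have := ord_finrank card_F9 h2 ρ h
        rwa [hfin] at this

section mod

variable {k : Type} [Field k] [IsAlgClosed k] [CharP k 3]

theorem exists_embedding (k : Type) [Field k] [IsAlgClosed k] [CharP k 3] :
    Nonempty (F9 →+* k) := by
  let _ : Algebra (ZMod 3) k := ZMod.algebra k 3
  exact ⟨(IsAlgClosed.lift : F9 →ₐ[ZMod 3] k).toRingHom⟩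

variable (θ : kˣ →* ℂˣ) (hθ : Function.Injective θ)

include hθ in
theorem theta_neg_one : ((θ (-1) : ℂˣ) : ℂ) = -1 := by
  have h1 : (((θ (-1) : ℂˣ) : ℂ) - 1) * (((θ (-1) : ℂˣ) : ℂ) + 1) = 0 := by
    have h2 : ((θ (-1) : ℂˣ) : ℂ) * ((θ (-1) : ℂˣ) : ℂ) = 1 := by
      rw [← Units.val_mul, ← map_mul, neg_mul_neg, one_mul, map_one, Units.val_one]
    linear_combination h2
  rcases mul_eq_zero.1 h1 with h1 | h1
  · exfalso
    have h2 : θ (-1) = 1 := by
      apply Units.ext
      rw [Units.val_one]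
      exact sub_eq_zero.1 h1
    have h3 : (-1 : kˣ) = 1 := hθ (by rw [h2, map_one])
    have h4 := congrArg Units.val h3
    rw [Units.val_neg, Units.val_one] at h4
    have h5 : (2 : k) = 0 := by linear_combination -h4
    exact two_ne_zero_of_char3 h5
  · exact eq_neg_of_add_eq_zero_left h1

include hθ in
theorem mod_char (φ : IBr 3 (SL F9) θ) : ∃ m : ℕ, 0 < m ∧ φ.1 re = m ∧
    (φ.1 rz = m ∨ (φ.1 rz = -m ∧ (m = 2 ∨ m = 6))) := by
  obtain ⟨φ, n, ρ, hρ, rfl⟩ := φ
  have hirr := irr_of_isIrreducible ρ hρ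
  have hnt := nontrivial_of_isIrreducible ρ hρ
  have hfin : Module.finrank k (Fin n → k) = n := by simp
  refine ⟨n, ?_, ?_, ?_⟩
  · rw [← hfin]
    exact Module.finrank_pos
  · change brauer 3 θ ρ re = n
    rw [brauer_scalar θ ρ re 1]
    · simp
    · intro y
      change ρ 1 y = _
      rw [map_one]
      simp
  · change brauer 3 θ ρ rz = n ∨ (brauer 3 θ ρ rz = -n ∧ _)
    rcases sign_of_irr ρ hirr (-1) neg_one_mul_neg_one center_comm with h | h
    · left
      rw [brauer_scalar θ ρ rz 1]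
      · simp
      · intro y
        change ρ (-1) y = _
        rw [h]
        simp
    · right
      constructor
      · rw [brauer_scalar θ ρ rz (-1), theta_neg_one θ hθ]
        · ring
        · intro y
          change ρ (-1) y = _
          rw [h]
          simp
      · obtain ⟨σ⟩ := exists_embedding k
        classical
        have := mod_finrank card_F9 σ ρ hirr h
        rwa [hfin] at this

/-- no ordinary irreducible character on which `-1` acts as `-1` is an irreducible Brauer
character -/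
theorem no_lift (χ : Irr (SL F9)) (φ : IBr 3 (SL F9) θ) (hodd : φ.1 rz = -φ.1 re)
    (hθ : Function.Injective θ) : ¬ ∀ g : Reg 3 (SL F9), χ.1 g.1 = φ.1 g := by
  intro hall
  obtain ⟨m, hm, h1, h2⟩ := mod_char θ hθ φ
  obtain ⟨n, hn, h3, h4⟩ := ord_char χ
  have e1 : (n : ℂ) = m := by rw [← h3, ← h1]; exact hall re
  have e2 : χ.1 (-1) = φ.1 rz := hall rz
  have e3 : n = m := by exact_mod_cast e1
  subst e3
  have hn0 : (n : ℂ) ≠ 0 := by
    rw [Nat.cast_ne_zero]; omega
  rw [hodd, h1] at h2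
  have h5 : n = 2 ∨ n = 6 := by
    rcases h2 with h2 | h2
    · exfalso
      apply hn0
      linear_combination -(1/2 : ℂ) * h2
    · exact h2.2
  rw [e2, hodd, h1] at h4
  rcases h4 with h4 | h4
  · apply hn0
    linear_combination -(1/2 : ℂ) * h4
  · rcases h5 with rfl | rfl
    · rcases h4.2 with h6 | h6 <;> omega
    · rcases h4.2 with h6 | h6 <;> omega

/-- the sign of the central involution on an ordinary or Brauer character -/
def Odd' : Irr (SL F9) ⊕ IBr 3 (SL F9) θ → Prop
  | Sum.inl χ => χ.1 (-1) = -χ.1 1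
  | Sum.inr φ => φ.1 rz = -φ.1 re

include hθ in
theorem linked_odd (x y : Irr (SL F9) ⊕ IBr 3 (SL F9) θ) (hl : Linked 3 θ x y) :
    Odd' θ x ↔ Odd' θ y := by
  obtain ⟨χ, φ, hd⟩ := hl
  change χ.1 (-1) = -χ.1 1 ↔ φ.1 rz = -φ.1 re
  unfold dec at hd
  split_ifs at hd with hex
  · have hc := Classical.choose_spec hex
    set c := Classical.choose hex with hcdef
    have h1 : χ.1 1 = c.sum (fun φ m => (m : ℂ) * φ.1 re) := hc re
    have hz : χ.1 (-1) = c.sum (fun φ m => (m : ℂ) * φ.1 rz) := hc rz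
    have hmem : φ ∈ c.support := Finsupp.mem_support_iff.2 hd
    choose M hM0 hM1 hM2 using mod_char θ hθ
    obtain ⟨n, hn, h3, h4⟩ := ord_char χ
    -- the two real identities
    constructor
    · intro hodd
      by_contra hφ
      have h5 : φ.1 rz = M φ := by
        rcases hM2 φ with h | h
        · exact h
        · exact absurd (by rw [h.1, hM1]) hφ
      have h6 : ∑ ψ ∈ c.support, (c ψ : ℂ) * (ψ.1 re + ψ.1 rz) = 0 := by
        simp only [mul_add, Finset.sum_add_distrib]
        have e1 : ∑ ψ ∈ c.support, (c ψ : ℂ) * ψ.1 re = χ.1 1 := h1.symm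
        have e2 : ∑ ψ ∈ c.support, (c ψ : ℂ) * ψ.1 rz = χ.1 (-1) := hz.symm
        rw [e1, e2, hodd]
        ring
      have h7 : ∀ ψ : IBr 3 (SL F9) θ, ∃ q : ℕ, ψ.1 re + ψ.1 rz = q := by
        intro ψ
        rcases hM2 ψ with h | h
        · exact ⟨M ψ + M ψ, by rw [h, hM1]; push_cast; ring⟩
        · exact ⟨0, by rw [h.1, hM1]; push_cast; ring⟩
      choose q hq using h7
      simp only [hq] at h6
      have h8 : ∑ ψ ∈ c.support, c ψ * q ψ = 0 := by exact_mod_cast h6
      have h9 := (Finset.sum_eq_zero_iff.1 h8) φ hmem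
      have h10 : q φ = 0 := by
        rcases Nat.mul_eq_zero.1 h9 with h | h
        · exact absurd h hd
        · exact h
      have h11 := hq φ
      rw [h10, h5, hM1] at h11
      have h12 : M φ + M φ = 0 := by exact_mod_cast h11
      have := hM0 φ
      omega
    · intro hφ
      by_contra hodd
      have h5 : χ.1 (-1) = χ.1 1 := by
        rcases h4 with h | h
        · rw [h, h3]
        · exact absurd (by rw [h.1, h3]) hodd
      have h6 : ∑ ψ ∈ c.support, (c ψ : ℂ) * (ψ.1 re - ψ.1 rz) = 0 := by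
        simp only [mul_sub, Finset.sum_sub_distrib]
        have e1 : ∑ ψ ∈ c.support, (c ψ : ℂ) * ψ.1 re = χ.1 1 := h1.symm
        have e2 : ∑ ψ ∈ c.support, (c ψ : ℂ) * ψ.1 rz = χ.1 (-1) := hz.symm
        rw [e1, e2, h5]
        ring
      have h7 : ∀ ψ : IBr 3 (SL F9) θ, ∃ q : ℕ, ψ.1 re - ψ.1 rz = q := by
        intro ψ
        rcases hM2 ψ with h | h
        · exact ⟨0, by rw [h, hM1]; push_cast; ring⟩
        · exact ⟨M ψ + M ψ, by rw [h.1, hM1]; push_cast; ring⟩
      choose q hq using h7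
      simp only [hq] at h6
      have h8 : ∑ ψ ∈ c.support, c ψ * q ψ = 0 := by exact_mod_cast h6
      have h9 := (Finset.sum_eq_zero_iff.1 h8) φ hmem
      have h10 : q φ = 0 := by
        rcases Nat.mul_eq_zero.1 h9 with h | h
        · exact absurd h hd
        · exact h
      have h11 := hq φ
      rw [h10, hφ, hM1] at h11
      have h12 : (M φ : ℂ) + M φ = 0 := by rw [← sub_neg_eq_add]; exact_mod_cast h11
      have h13 : M φ + M φ = 0 := by exact_mod_cast h12
      have := hM0 φ
      omega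
  · exact absurd rfl hd

include hθ in
theorem eqvGen_odd (x y : Irr (SL F9) ⊕ IBr 3 (SL F9) θ)
    (hl : Relation.EqvGen (Linked 3 θ) x y) : Odd' θ x ↔ Odd' θ y := by
  induction hl with
  | rel x y h => exact linked_odd θ hθ x y h
  | refl x => exact Iff.rfl
  | symm x y _ ih => exact ih.symm
  | trans x y z _ _ ih1 ih2 => exact ih1.trans ih2

/-- the natural representation -/
noncomputable def nat (σ : F9 →+* k) : Representation k (SL F9) (Fin 2 → k) where
  toFun g := Matrix.toLin' ((g : Matrix (Fin 2) (Fin 2) F9).map σ)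
  map_one' := by
    change Matrix.toLin' ((1 : Matrix (Fin 2) (Fin 2) F9).map σ) = 1
    rw [Matrix.map_one σ (map_zero σ) (map_one σ), Matrix.toLin'_one]
    rfl
  map_mul' a b := by
    change Matrix.toLin' (((a : Matrix (Fin 2) (Fin 2) F9) * b).map σ) = _
    rw [Matrix.map_mul, Matrix.toLin'_mul]
    rfl

theorem nat_apply (σ : F9 →+* k) (g : SL F9) (y : Fin 2 → k) :
    nat σ g y = ![σ (g 0 0) * y 0 + σ (g 0 1) * y 1, σ (g 1 0) * y 0 + σ (g 1 1) * y 1] := by
  change Matrix.toLin' ((g : Matrix (Fin 2) (Fin 2) F9).map σ) y = _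
  rw [Matrix.toLin'_apply]
  ext i
  fin_cases i <;> simp [Matrix.mulVec, dotProduct, Fin.sum_univ_two]

theorem nat_irreducible (σ : F9 →+* k) : (nat σ).IsIrreducible := by
  have hne : (⊥ : Subrepresentation (nat σ)) ≠ ⊤ := by
    intro h
    have h1 : (⊥ : Submodule k (Fin 2 → k)) = ⊤ := congrArg Subrepresentation.toSubmodule h
    exact bot_ne_top h1
  refine { exists_pair_ne := ⟨⊥, ⊤, hne⟩, eq_bot_or_eq_top := ?_ }
  intro W
  by_cases hW : W.toSubmodule = ⊥
  · left
    exact Subrepresentation.toSubmodule_injective hW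
  right
  apply Subrepresentation.toSubmodule_injective
  change W.toSubmodule = ⊤
  obtain ⟨y, hy, hy0⟩ := (Submodule.ne_bot_iff _).1 hW
  have hinv : ∀ g : SL F9, ∀ v ∈ W.toSubmodule, nat σ g v ∈ W.toSubmodule :=
    fun g v hv => W.apply_mem_toSubmodule g hv
  have he0 : (![1, 0] : Fin 2 → k) ∈ W.toSubmodule := by
    by_cases h1 : y 1 = 0
    · have h0 : y 0 ≠ 0 := by
        intro h0
        apply hy0
        ext i
        fin_cases i
        · exact h0
        · exact h1
      have : (![1, 0] : Fin 2 → k) = (y 0)⁻¹ • y := by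
        ext i
        fin_cases i
        · simp [h0]
        · simp [h1]
      rw [this]
      exact Submodule.smul_mem _ _ hy
    · have h2 := Submodule.sub_mem _ (hinv (u 1) y hy) hy
      have h3 : nat σ (u 1) y - y = ![y 1, 0] := by
        rw [nat_apply]
        ext i
        fin_cases i
        · change σ ((u (1 : F9)) 0 0) * y 0 + σ ((u (1 : F9)) 0 1) * y 1 - y 0 = y 1
          simp
        · change σ ((u (1 : F9)) 1 0) * y 0 + σ ((u (1 : F9)) 1 1) * y 1 - y 1 = 0
          simp
      have : (![1, 0] : Fin 2 → k) = (y 1)⁻¹ • (nat σ (u 1) y - y) := by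
        rw [h3]
        ext i
        fin_cases i
        · simp [h1]
        · simp
      rw [this]
      exact Submodule.smul_mem _ _ h2
  have he1 : (![0, 1] : Fin 2 → k) ∈ W.toSubmodule := by
    have h2 := hinv w _ he0
    have : (![0, 1] : Fin 2 → k) = (-1 : k) • nat σ w ![1, 0] := by
      rw [nat_apply]
      ext i
      fin_cases i <;> simp
    rw [this]
    exact Submodule.smul_mem _ _ h2
  rw [eq_top_iff]
  intro v _
  have : v = v 0 • (![1, 0] : Fin 2 → k) + v 1 • (![0, 1] : Fin 2 → k) := by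
    ext i
    fin_cases i <;> simp
  rw [this]
  exact Submodule.add_mem _ (Submodule.smul_mem _ _ he0) (Submodule.smul_mem _ _ he1)

include hθ in
/-- the natural Brauer character -/
theorem exists_odd : ∃ φ : IBr 3 (SL F9) θ, φ.1 rz = -φ.1 re := by
  obtain ⟨σ⟩ := exists_embedding k
  refine ⟨⟨brauer 3 θ (nat σ), 2, nat σ, nat_irreducible σ, rfl⟩, ?_⟩
  change brauer 3 θ (nat σ) rz = -brauer 3 θ (nat σ) re
  rw [brauer_scalar θ (nat σ) rz (-1), brauer_scalar θ (nat σ) re 1, theta_neg_one θ hθ]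
  · simp
  · intro y
    change nat σ 1 y = _
    rw [map_one]
    simp
  · intro y
    change nat σ (-1) y = _
    rw [nat_apply]
    ext i
    fin_cases i <;> simp

/-- the faithful block of `SL(2, 9)` in characteristic three -/
theorem main (hθ : Function.Injective θ) :
    ∃ (I : Set (Irr (SL F9))) (J : Set (IBr 3 (SL F9) θ)), IsBlock 3 θ I J ∧ J.Nonempty ∧
      (∀ χ ∈ I, ∀ φ ∈ J, ¬ ∀ g : Reg 3 (SL F9), χ.1 g.1 = φ.1 g) ∧ ¬ Unitriangular 3 θ I J := by
  obtain ⟨φ₀, hφ₀⟩ := exists_odd θ hθ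
  have hJ : ∀ φ : IBr 3 (SL F9) θ, Relation.EqvGen (Linked 3 θ) (Sum.inr φ₀) (Sum.inr φ) →
      φ.1 rz = -φ.1 re := fun φ h => (eqvGen_odd θ hθ _ _ h).1 hφ₀
  have hno : ∀ χ : Irr (SL F9), ∀ φ : IBr 3 (SL F9) θ,
      Relation.EqvGen (Linked 3 θ) (Sum.inr φ₀) (Sum.inr φ) →
      ¬ ∀ g : Reg 3 (SL F9), χ.1 g.1 = φ.1 g :=
    fun χ φ h => no_lift θ χ φ (hJ φ h) hθ
  refine ⟨{χ | Relation.EqvGen (Linked 3 θ) (Sum.inr φ₀) (Sum.inl χ)},
    {φ | Relation.EqvGen (Linked 3 θ) (Sum.inr φ₀) (Sum.inr φ)}, ⟨_, rfl, rfl⟩,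
    ⟨φ₀, Relation.EqvGen.refl _⟩, fun χ _ φ hφ => hno χ φ hφ, ?_⟩
  rintro ⟨n, χ, φ, hχ, hχI, hφ, hrange, hdiag, htri⟩
  have hn : 0 < n := by
    have h0 : φ₀ ∈ Set.range φ := by
      rw [hrange]
      exact Relation.EqvGen.refl _
    obtain ⟨i, _⟩ := h0
    exact lt_of_le_of_lt (Nat.zero_le _) i.2
  set i₀ : Fin n := ⟨0, hn⟩ with hi₀
  have h1 := hdiag i₀
  have hex : ∃ c, IsDec 3 θ (χ i₀).1 c := by
    by_contra hex
    unfold dec at h1
    rw [dif_neg hex] at h1
    exact zero_ne_one h1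
  have hdec : ∀ ψ, dec 3 θ (χ i₀) ψ = (Classical.choose hex) ψ := by
    intro ψ
    unfold dec
    rw [dif_pos hex]
  have hc := Classical.choose_spec hex
  set c := Classical.choose hex with hcdef
  have hsupp : ∀ ψ, ψ ≠ φ i₀ → c ψ = 0 := by
    intro ψ hψ
    by_contra hcψ
    have hd : dec 3 θ (χ i₀) ψ ≠ 0 := by rw [hdec]; exact hcψ
    have hmem : ψ ∈ Set.range φ := by
      rw [hrange]
      exact (hχI i₀).trans _ _ _ (Relation.EqvGen.rel _ _ (Linked.mk _ _ hd))
    obtain ⟨j, rfl⟩ := hmem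
    have hj : i₀ < j := by
      rw [Fin.lt_def]
      by_contra hj
      apply hψ
      congr 1
      apply Fin.ext
      simp only [hi₀] at hj ⊢
      omega
    exact hd (htri i₀ j hj)
  apply hno (χ i₀) (φ i₀)
  · have : φ i₀ ∈ Set.range φ := ⟨i₀, rfl⟩
    rw [hrange] at this
    exact this
  · intro g
    rw [hc g, Finsupp.sum, Finset.sum_eq_single (φ i₀)]
    · rw [← hdec, h1, Nat.cast_one, one_mul]
    · intro ψ _ hψ
      rw [hsupp ψ hψ, Nat.cast_zero, zero_mul]
    · intro hns
      exfalso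
      rw [Finsupp.notMem_support_iff, ← hdec, h1] at hns
      exact one_ne_zero hns

end mod

end Pool.Agent.W447.UT
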