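import Mathlib

set_option autoImplicit false

/-!
The group `SL(2, F)`: unipotent and diagonal elements, the Weyl element, the Bruhat decomposition.
-/

namespace Pool.Agent.W447.UT

open Matrix

variable {F : Type} [Field F]

/-- upper unipotent elements -/
def u (b : F) : SpecialLinearGroup (Fin 2) F := ⟨!![1, b; 0, 1], by simp [Matrix.det_fin_two]⟩

/-- diagonal elements -/
def h (t : Fˣ) : SpecialLinearGroup (Fin 2) F :=
  ⟨!![(t : F), 0; 0, ((t⁻¹ : Fˣ) : F)], by simp [Matrix.det_fin_two]⟩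

/-- the Weyl element -/
def w : SpecialLinearGroup (Fin 2) F := ⟨!![0, 1; -1, 0], by simp [Matrix.det_fin_two]⟩

@[simp] theorem u_coe (b : F) : ((u b : SpecialLinearGroup (Fin 2) F) : Matrix (Fin 2) (Fin 2) F)
    = !![1, b; 0, 1] := rfl

@[simp] theorem h_coe (t : Fˣ) : ((h t : SpecialLinearGroup (Fin 2) F) : Matrix (Fin 2) (Fin 2) F)
    = !![(t : F), 0; 0, ((t⁻¹ : Fˣ) : F)] := rfl

@[simp] theorem w_coe : ((w : SpecialLinearGroup (Fin 2) F) : Matrix (Fin 2) (Fin 2) F)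
    = !![0, 1; -1, 0] := rfl

theorem u_zero : (u (0 : F)) = 1 := by
  ext i j
  fin_cases i <;> fin_cases j <;> simp

theorem u_add (a b : F) : u (a + b) = u a * u b := by
  ext i j
  fin_cases i <;> fin_cases j <;> simp [Matrix.mul_apply, Fin.sum_univ_two, add_comm]

theorem u_neg (a : F) : u (-a) = (u a)⁻¹ := by
  rw [eq_inv_iff_mul_eq_one, ← u_add, neg_add_cancel, u_zero]

theorem h_one : (h (1 : Fˣ)) = 1 := by
  ext i j
  fin_cases i <;> fin_cases j <;> simp

theorem h_mul (a b : Fˣ) : h (a * b) = h a * h b := by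
  ext i j
  fin_cases i <;> fin_cases j <;> simp [Matrix.mul_apply, Fin.sum_univ_two, mul_comm]

theorem h_inv (a : Fˣ) : h (a⁻¹) = (h a)⁻¹ := by
  rw [eq_inv_iff_mul_eq_one, ← h_mul, inv_mul_cancel, h_one]

theorem h_pow (a : Fˣ) (n : ℕ) : h (a ^ n) = (h a) ^ n := by
  induction n with
  | zero => simp [h_one]
  | succ n ih => rw [pow_succ, pow_succ, h_mul, ih]

theorem h_neg_one : h (-1 : Fˣ) = -1 := by
  ext i j
  fin_cases i <;> fin_cases j <;> simp

theorem w_mul_w : (w : SpecialLinearGroup (Fin 2) F) * w = -1 := by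
  ext i j
  fin_cases i <;> fin_cases j <;> simp [Matrix.mul_apply, Fin.sum_univ_two]

theorem w_inv : (w : SpecialLinearGroup (Fin 2) F)⁻¹ = -1 * w := by
  apply inv_eq_of_mul_eq_one_right
  ext i j
  fin_cases i <;> fin_cases j <;> simp [Matrix.mul_apply, Fin.sum_univ_two]

theorem h_u (t : Fˣ) (b : F) : h t * u b = u ((t : F) ^ 2 * b) * h t := by
  ext i j
  fin_cases i <;> fin_cases j <;> simp [Matrix.mul_apply, Fin.sum_univ_two]
  field_simp

theorem w_h (t : Fˣ) : w * h t = h t⁻¹ * w := by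
  ext i j
  fin_cases i <;> fin_cases j <;> simp [Matrix.mul_apply, Fin.sum_univ_two]

/-- conjugating a diagonal element by unipotent ones -/
theorem u_h_u (s : F) (t : Fˣ) : u s * h t * (u s)⁻¹ = h t * u (s * ((t⁻¹ : Fˣ) : F) ^ 2 - s) := by
  rw [← u_neg]
  ext i j
  fin_cases i <;> fin_cases j <;> simp [Matrix.mul_apply, Fin.sum_univ_two]
  field_simp
  ring

/-- elements with vanishing lower left entry -/
theorem bruhat_zero (g : SpecialLinearGroup (Fin 2) F) (hg : g 1 0 = 0) :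
    ∃ (t : Fˣ) (b : F), g = h t * u b := by
  have hdet := g.det_coe
  rw [Matrix.det_fin_two, hg, mul_zero, sub_zero] at hdet
  have h0 : g 0 0 ≠ 0 := by
    intro h
    rw [h, zero_mul] at hdet
    exact zero_ne_one hdet
  refine ⟨Units.mk0 (g 0 0) h0, (g 0 0)⁻¹ * g 0 1, ?_⟩
  have h11 : g 1 1 = (g 0 0)⁻¹ := by
    exact eq_inv_of_mul_eq_one_right hdet
  ext i j
  fin_cases i <;> fin_cases j <;>
    simp [Matrix.mul_apply, Fin.sum_univ_two, hg, h11, h0]

/-- elements with non-vanishing lower left entry -/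
theorem bruhat_ne (g : SpecialLinearGroup (Fin 2) F) (c : Fˣ) (hg : g 1 0 = c) :
    ∃ (a b : F), g = u a * (h (-c⁻¹) * w * u b) := by
  have hdet := g.det_coe
  rw [Matrix.det_fin_two, hg] at hdet
  refine ⟨g 0 0 * ((c⁻¹ : Fˣ) : F), g 1 1 * ((c⁻¹ : Fˣ) : F), ?_⟩
  have hc : (c : F) ≠ 0 := c.ne_zero
  have h01 : g 0 1 = (g 0 0 * g 1 1 - 1) * ((c⁻¹ : Fˣ) : F) := by
    rw [Units.val_inv_eq_inv_val, eq_mul_inv_iff_mul_eq₀ hc]
    linear_combination -hdet
  ext i j
  fin_cases i <;> fin_cases j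
  · simp [Matrix.mul_apply, Fin.sum_univ_two]
  · simp only [Fin.zero_eta, Fin.mk_one]
    rw [h01]
    simp [Matrix.mul_apply, Fin.sum_univ_two]
    field_simp
    ring
  · simp [Matrix.mul_apply, Fin.sum_univ_two, hg]
  · simp [Matrix.mul_apply, Fin.sum_univ_two]
    field_simp

end Pool.Agent.W447.UT
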