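import Pool.Agent.W447.UT.Dim

set_option autoImplicit false

/-!
The two key facts: dimensions of representations of `SL(2, 9)` on which `-1` acts as `-1`, for
irreducible ones in characteristic three and for arbitrary ones in characteristic zero.
-/

namespace Pool.Agent.W447.UT

open Matrix Finset

variable {F : Type} [Field F] {K V : Type*} [Field K] [AddCommGroup V] [Module K V]

theorem not_self_inverse [Fintype F] [DecidableEq F] (hF : Fintype.card F = 9) (σ : F →+* K)
    (h2 : (2 : K) ≠ 0) (μ : Fˣ →* Kˣ) (hμ : (μ (-1) : K) = -1) (hinv : ∀ t, μ t = μ t⁻¹) :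
    False := by
  obtain ⟨r, hr, h1⟩ := exists_exp hF σ h2 μ hμ
  have h3 : ∀ t : Fˣ, σ (t : F) ^ (2 * r) = 1 := by
    intro t
    have h4 : μ t * μ t = 1 := by
      nth_rewrite 2 [hinv t]
      rw [← map_mul, mul_inv_cancel, map_one]
    have h5 := congrArg Units.val h4
    rw [Units.val_mul, h1, Units.val_one, ← pow_add] at h5
    rw [two_mul]
    exact h5
  have h4 := sum_pow_units' hF σ (2 * r)
  simp only [h3] at h4
  rw [if_neg (by omega), Finset.sum_const, Finset.card_univ, Fintype.card_units, hF] at h4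
  have h8 : (8 : K) = 0 := by simpa using h4
  have h9 : (2 : K) ^ 3 = 0 := by
    rw [← h8]; norm_num
  exact h2 (pow_eq_zero_iff (by norm_num) |>.1 h9)

theorem two_ne_zero_of_char3 [CharP K 3] : (2 : K) ≠ 0 := by
  intro h
  have h1 : ((2 : ℕ) : K) = 0 := by exact_mod_cast h
  rw [CharP.cast_eq_zero_iff K 3] at h1
  omega

theorem pair_finrank [Fintype F] [DecidableEq F] (hF : Fintype.card F = 9) [CharP K 3]
    (σ : F →+* K) (ρ : Representation K (SL F) V)
    (hirr : ∀ W : Submodule K V, (∀ g, ∀ y ∈ W, ρ g y ∈ W) → W = ⊥ ∨ W = ⊤)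
    (μ ν : Fˣ →* Kˣ) (x : V) (ξ : V →ₗ[K] K) (P : Pair ρ μ ν x ξ) (hw : ξ (ρ w x) ≠ 0)
    (hμ : (μ (-1) : K) = -1) : Module.finrank K V = 2 ∨ Module.finrank K V = 6 := by
  have h2 : (2 : K) ≠ 0 := two_ne_zero_of_char3
  have hν : ∀ t, ν t = μ t⁻¹ := by
    intro t
    rw [P.weight_w hw, inv_inv]
  have hx : ξ x = 0 := by
    by_contra hx
    apply not_self_inverse hF σ h2 μ hμ
    intro t
    rw [← hν]
    exact P.weight_one hx t
  obtain ⟨r, hr, hσ⟩ := exists_exp hF σ h2 μ hμ
  have hr1 : 1 ≤ r := by omega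
  have hr7 : r ≤ 7 := by omega
  have hval : ∀ g : SL F, ξ (ρ g x) = (-(ξ (ρ w x))) * σ (g 1 0) ^ r := by
    intro g
    by_cases hg : g 1 0 = 0
    · rw [P.val_zero hx g hg, hg, map_zero, zero_pow (by omega), mul_zero]
    · rw [P.val_ne g (Units.mk0 _ hg) rfl, hν, inv_neg, inv_inv, ← neg_one_mul, map_mul,
        Units.val_mul, hμ, hσ, Units.val_mk0]
      ring
  have hκ : -(ξ (ρ w x)) ≠ 0 := neg_ne_zero.2 hw
  have key : ∀ I : Finset ℕ, (∀ i, i ∈ I ↔ i ≤ r ∧ ¬ 3 ∣ r.choose i) →
      Module.finrank K V = I.card := by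
    intro I hI
    apply finrank_eq hF σ ρ hirr x ξ _ hκ r hr7 hval
    intro i
    rw [hI, Ne, CharP.cast_eq_zero_iff K 3]
  rcases hr with rfl | rfl | rfl | rfl
  · left
    apply key {0, 1}
    intro i
    constructor
    · intro hi
      fin_cases hi <;> decide
    · rintro ⟨h1, h3⟩
      interval_cases i <;> revert h3 <;> decide
  · left
    apply key {0, 3}
    intro i
    constructor
    · intro hi
      fin_cases hi <;> decide
    · rintro ⟨h1, h3⟩
      interval_cases i <;> revert h3 <;> decide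
  · right
    apply key {0, 1, 2, 3, 4, 5}
    intro i
    constructor
    · intro hi
      fin_cases hi <;> decide
    · rintro ⟨h1, h3⟩
      interval_cases i <;> revert h3 <;> decide
  · right
    apply key {0, 1, 3, 4, 6, 7}
    intro i
    constructor
    · intro hi
      fin_cases hi <;> decide
    · rintro ⟨h1, h3⟩
      interval_cases i <;> revert h3 <;> decide

/-- irreducible representations in characteristic three on which `-1` acts as `-1` have dimension
two or six -/
theorem mod_finrank [Fintype F] [DecidableEq F] (hF : Fintype.card F = 9) [CharP F 3] [CharP K 3]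
    [IsAlgClosed K] [FiniteDimensional K V] [Nontrivial V] (σ : F →+* K)
    (ρ : Representation K (SL F) V)
    (hirr : ∀ W : Submodule K V, (∀ g, ∀ y ∈ W, ρ g y ∈ W) → W = ⊥ ∨ W = ⊤)
    (hz : ∀ y, ρ (-1) y = -y) : Module.finrank K V = 2 ∨ Module.finrank K V = 6 := by
  obtain ⟨x₀, hx₀, hx₁⟩ := exists_fixed ρ
  obtain ⟨x, hx, μ, hu, ht⟩ := exists_weight ρ x₀ hx₀ hx₁
  obtain ⟨ξ₀, hξ₀, hξ₁⟩ := exists_fixed (F := F) ρ.dual
  obtain ⟨ξ, hξ, ν, hξu, hξt⟩ := exists_weight (F := F) ρ.dual ξ₀ hξ₀ hξ₁
  have P : Pair ρ μ ν⁻¹ x ξ := by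
    refine ⟨hu, ht, ?_, ?_⟩
    · intro b y
      have h1 := congrArg (fun f : Module.Dual K V => f y) (hξu (-b))
      simp only [Representation.dual_apply, Module.Dual.transpose_apply, LinearMap.comp_apply] at h1
      rw [u_neg, inv_inv] at h1
      exact h1
    · intro t y
      have h1 := congrArg (fun f : Module.Dual K V => f y) (hξt t⁻¹)
      simp only [Representation.dual_apply, Module.Dual.transpose_apply, LinearMap.comp_apply,
        LinearMap.smul_apply, smul_eq_mul] at h1
      rw [h_inv, inv_inv, map_inv] at h1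
      rw [MonoidHom.inv_apply]
      exact h1
  have hμ : (μ (-1) : K) = -1 := by
    have h1 := ht (-1)
    rw [h_neg_one, hz, ← neg_one_smul K x] at h1
    exact (smul_left_injective K hx h1).symm
  have hne : ξ x ≠ 0 ∨ ξ (ρ w x) ≠ 0 := by
    by_contra hcon
    push Not at hcon
    have h1 : ∀ g, ξ (ρ g x) = 0 := by
      intro g
      by_cases hg : g 1 0 = 0
      · exact P.val_zero hcon.1 g hg
      · rw [P.val_ne g (Units.mk0 _ hg) rfl, hcon.2, mul_zero]
    let W : Submodule K V :=
      { carrier := {y | ∀ g, ξ (ρ g y) = 0}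
        add_mem' := by
          intro a b ha hb g
          rw [map_add, map_add, ha g, hb g, add_zero]
        zero_mem' := by
          intro g
          rw [map_zero, map_zero]
        smul_mem' := by
          intro a y hy g
          rw [map_smul, map_smul, hy g, smul_zero] }
    have hW : ∀ g, ∀ y ∈ W, ρ g y ∈ W := by
      intro g y hy g'
      rw [← Module.End.mul_apply, ← map_mul]
      exact hy _
    rcases hirr W hW with h2 | h2
    · have : x ∈ W := h1
      rw [h2, Submodule.mem_bot] at this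
      exact hx this
    · apply hξ
      ext y
      have : y ∈ W := by rw [h2]; trivial
      have h3 := this 1
      rw [map_one, Module.End.one_apply] at h3
      exact h3
  by_cases hw : ξ (ρ w x) = 0
  · have hx' : ξ x ≠ 0 := by
      rcases hne with h1 | h1
      · exact h1
      · exact absurd hw h1
    obtain ⟨x', P', hx2⟩ := P.swap hx' hw
    apply pair_finrank hF σ ρ hirr _ _ x' ξ P' hx2
    rw [MonoidHom.inv_apply, Units.val_inv_eq_inv_val, hμ]
    norm_num
  · exact pair_finrank hF σ ρ hirr _ _ x ξ P hw hμ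

theorem exists_fourth [Fintype F] (hF : Fintype.card F = 9) (h2 : (2 : F) ≠ 0) :
    ∃ t : Fˣ, t ^ 4 = -1 := by
  classical
  obtain ⟨t₀, ht₀⟩ := IsCyclic.exists_generator (α := Fˣ)
  have hcard : Fintype.card Fˣ = 8 := by
    rw [Fintype.card_units, hF]
  have hord : orderOf t₀ = 8 := by
    rw [orderOf_eq_card_of_forall_mem_zpowers ht₀, Nat.card_eq_fintype_card, hcard]
  refine ⟨t₀, ?_⟩
  have h8 : t₀ ^ 8 = 1 := by rw [← hord]; exact pow_orderOf_eq_one t₀
  have h8' : (t₀ : F) ^ 8 = 1 := by
    rw [← Units.val_pow_eq_pow_val, h8, Units.val_one]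
  have h1 : ((t₀ : F) ^ 4 - 1) * ((t₀ : F) ^ 4 + 1) = 0 := by
    linear_combination h8'
  rcases mul_eq_zero.1 h1 with h1 | h1
  · exfalso
    have h3 : t₀ ^ 4 = 1 := by
      apply Units.ext
      rw [Units.val_pow_eq_pow_val, Units.val_one]
      exact sub_eq_zero.1 h1
    have := orderOf_dvd_of_pow_eq_one h3
    rw [hord] at this
    omega
  · apply Units.ext
    rw [Units.val_pow_eq_pow_val, Units.val_neg, Units.val_one]
    exact eq_neg_of_add_eq_zero_left h1

end Pool.Agent.W447.UT
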