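import Pool.Agent.W447.UT.Pair

set_option autoImplicit false

/-!
Irreducible representations of `SL(2, 9)` in characteristic three on which `-1` acts as `-1` have
dimension 2 or 6.
-/

namespace Pool.Agent.W447.UT

open Matrix

variable {F : Type} [Field F] {K V : Type*} [Field K] [AddCommGroup V] [Module K V]

/-- a `U`-fixed vector can be chosen to be an eigenvector of the torus -/
theorem exists_weight [Finite F] [IsAlgClosed K] [FiniteDimensional K V]
    (ρ : Representation K (SL F) V) (x₀ : V) (h0 : x₀ ≠ 0) (hx₀ : ∀ b, ρ (u b) x₀ = x₀) :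
    ∃ x, x ≠ 0 ∧ ∃ μ : Fˣ →* Kˣ, (∀ b, ρ (u b) x = x) ∧ ∀ t, ρ (h t) x = (μ t : K) • x := by
  classical
  let W : Submodule K V :=
    { carrier := {x | ∀ b, ρ (u b) x = x}
      add_mem' := by
        intro a b ha hb c
        rw [map_add, ha c, hb c]
      zero_mem' := by
        intro b
        rw [map_zero]
      smul_mem' := by
        intro a y hy b
        rw [map_smul, hy b] }
  have hW : ∀ t : Fˣ, ∀ y ∈ W, ρ (h t) y ∈ W := by
    intro t y hy b
    have hb : (t : F) ^ 2 ≠ 0 := pow_ne_zero _ t.ne_zero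
    have h1 : u b * h t = h t * u (((t : F) ^ 2)⁻¹ * b) := by
      rw [h_u, mul_inv_cancel_left₀ hb]
    rw [← Module.End.mul_apply, ← map_mul, h1, map_mul, Module.End.mul_apply, hy]
  obtain ⟨t₀, ht₀⟩ := IsCyclic.exists_generator (α := Fˣ)
  have hWn : Nontrivial W := ⟨⟨⟨x₀, hx₀⟩, 0, fun hh => h0 (congrArg Subtype.val hh)⟩⟩
  obtain ⟨c, hc⟩ := Module.End.exists_eigenvalue ((ρ (h t₀)).restrict (hW t₀))
  obtain ⟨v, hv⟩ := hc.exists_hasEigenvector
  have hv0 : (v : V) ≠ 0 := fun hh => hv.2 (Subtype.ext hh)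
  have hvc : ρ (h t₀) (v : V) = c • (v : V) := congrArg Subtype.val hv.apply_eq_smul
  have hm : ∀ t : Fˣ, ∃ m : K, ρ (h t) (v : V) = m • (v : V) := by
    intro t
    obtain ⟨j, rfl⟩ := (mem_powers_iff_mem_zpowers.2 (ht₀ t) : t ∈ Submonoid.powers t₀)
    refine ⟨c ^ j, ?_⟩
    change ρ (h (t₀ ^ j)) (v : V) = _
    induction j with
    | zero => simp [h_one]
    | succ j ih =>
      rw [pow_succ', h_mul, map_mul, Module.End.mul_apply, ih, map_smul, hvc, smul_smul,
        pow_succ]
  choose m hm using hm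
  have m1 : m 1 = 1 := by
    have h1 := hm 1
    rw [h_one, map_one, Module.End.one_apply] at h1
    have h2 : (1 : K) • (v : V) = m 1 • (v : V) := by rw [one_smul]; exact h1
    exact (smul_left_injective K hv0 h2).symm
  have mm : ∀ s t, m (s * t) = m s * m t := by
    intro s t
    have h1 := hm (s * t)
    rw [h_mul, map_mul, Module.End.mul_apply, hm t, map_smul, hm s, smul_smul] at h1
    rw [mul_comm (m s)]
    exact (smul_left_injective K hv0 h1).symm
  let M : Fˣ →* K := ⟨⟨m, m1⟩, mm⟩
  refine ⟨v, hv0, M.toHomUnits, v.2, ?_⟩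
  intro t
  rw [MonoidHom.coe_toHomUnits]
  exact hm t

/-- in characteristic three there are `U`-fixed vectors -/
theorem exists_fixed [Fintype F] [CharP F 3] [CharP K 3] [Nontrivial V]
    (ρ : Representation K (SL F) V) : ∃ x : V, x ≠ 0 ∧ ∀ b, ρ (u b) x = x := by
  classical
  have key : ∀ s : Finset F, ∃ x : V, x ≠ 0 ∧ ∀ b ∈ s, ρ (u b) x = x := by
    intro s
    induction s using Finset.induction_on with
    | empty =>
      obtain ⟨x, hx⟩ := exists_ne (0 : V)
      exact ⟨x, hx, by simp⟩
    | insert b s hb ih =>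
      obtain ⟨x, hx, hs⟩ := ih
      let N : V →ₗ[K] V := ρ (u b) - 1
      have hN : ∀ y, N y = ρ (u b) y - y := fun y => rfl
      have hcomm : ∀ (a : F) (y : V), ρ (u a) y = y → ρ (u a) (N y) = N y := by
        intro a y hy
        rw [hN, map_sub, hy, ← Module.End.mul_apply, ← map_mul, ← u_add, add_comm a b, u_add,
          map_mul, Module.End.mul_apply, hy]
      have h3 : N (N (N x)) = 0 := by
        have hA : ρ (u b) (ρ (u b) (ρ (u b) x)) = x := by
          rw [← Module.End.mul_apply, ← Module.End.mul_apply, ← map_mul, ← map_mul, ← u_add,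
            ← u_add]
          have : b + b + b = 0 := by
            have h3 : (3 : F) = 0 := by
              have := CharP.cast_eq_zero F 3
              exact_mod_cast this
            linear_combination b * h3
          rw [this, u_zero, map_one, Module.End.one_apply]
        have h3 : (3 : K) = 0 := by
          have := CharP.cast_eq_zero K 3
          exact_mod_cast this
        simp only [hN, map_sub, hA]
        have : x - ρ (u b) (ρ (u b) x) - (ρ (u b) (ρ (u b) x) - ρ (u b) x)
            - (ρ (u b) (ρ (u b) x) - ρ (u b) x - (ρ (u b) x - x))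
            = (3 : K) • (ρ (u b) x - ρ (u b) (ρ (u b) x)) := by
          module
        rw [this, h3, zero_smul]
      by_cases h1 : N x = 0
      · refine ⟨x, hx, ?_⟩
        intro a ha
        rcases Finset.mem_insert.1 ha with rfl | ha
        · rw [hN, sub_eq_zero] at h1
          exact h1
        · exact hs a ha
      by_cases h2 : N (N x) = 0
      · refine ⟨N x, h1, ?_⟩
        intro a ha
        rcases Finset.mem_insert.1 ha with rfl | ha
        · rw [hN (N x), sub_eq_zero] at h2
          exact h2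
        · exact hcomm a x (hs a ha)
      · refine ⟨N (N x), h2, ?_⟩
        intro a ha
        rcases Finset.mem_insert.1 ha with rfl | ha
        · rw [hN (N (N x)), sub_eq_zero] at h3
          exact h3
        · exact hcomm a _ (hcomm a x (hs a ha))
  obtain ⟨x, hx, hall⟩ := key Finset.univ
  exact ⟨x, hx, fun b => hall b (Finset.mem_univ b)⟩

/-- characters of the torus with value `-1` at `-1` -/
theorem exists_exp [Fintype F] (hF : Fintype.card F = 9) (σ : F →+* K) (h2 : (2 : K) ≠ 0)
    (μ : Fˣ →* Kˣ) (hμ : (μ (-1) : K) = -1) :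
    ∃ r : ℕ, (r = 1 ∨ r = 3 ∨ r = 5 ∨ r = 7) ∧ ∀ t : Fˣ, (μ t : K) = σ t ^ r := by
  classical
  obtain ⟨t₀, ht₀⟩ := IsCyclic.exists_generator (α := Fˣ)
  have hcard : Fintype.card Fˣ = 8 := by
    rw [Fintype.card_units, hF]
  have hord : orderOf t₀ = 8 := by
    rw [orderOf_eq_card_of_forall_mem_zpowers ht₀, Nat.card_eq_fintype_card, hcard]
  have hprim : IsPrimitiveRoot (σ (t₀ : F)) 8 := by
    have h1 : IsPrimitiveRoot t₀ 8 := by
      rw [← hord]; exact IsPrimitiveRoot.orderOf t₀
    have h2 : IsPrimitiveRoot (t₀ : F) 8 := IsPrimitiveRoot.coe_units_iff.2 h1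
    exact h2.map_of_injective σ.injective
  have hpow : ((μ t₀ : Kˣ) : K) ^ 8 = 1 := by
    rw [← Units.val_pow_eq_pow_val, ← map_pow, ← hord, pow_orderOf_eq_one, map_one, Units.val_one]
  obtain ⟨r, hr8, hr⟩ := hprim.eq_pow_of_pow_eq_one hpow
  have h4 : σ (t₀ : F) ^ 4 = -1 := by
    have h1 : (σ (t₀ : F) ^ 4 - 1) * (σ (t₀ : F) ^ 4 + 1) = 0 := by
      have := hprim.pow_eq_one
      linear_combination this
    rcases mul_eq_zero.1 h1 with h1 | h1
    · exact absurd (sub_eq_zero.1 h1) (hprim.pow_ne_one_of_pos_of_lt (by norm_num) (by norm_num))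
    · exact eq_neg_of_add_eq_zero_left h1
  have ht4 : t₀ ^ 4 = -1 := by
    apply Units.ext
    apply σ.injective
    rw [Units.val_pow_eq_pow_val, map_pow, h4]
    simp
  have hall : ∀ t : Fˣ, (μ t : K) = σ t ^ r := by
    intro t
    obtain ⟨j, rfl⟩ := (mem_powers_iff_mem_zpowers.2 (ht₀ t) : t ∈ Submonoid.powers t₀)
    change ((μ (t₀ ^ j) : Kˣ) : K) = σ ((t₀ ^ j : Fˣ) : F) ^ r
    rw [map_pow, Units.val_pow_eq_pow_val, Units.val_pow_eq_pow_val, map_pow, ← hr, ← pow_mul,
      ← pow_mul, mul_comm]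
  refine ⟨r, ?_, hall⟩
  have hodd : ¬ Even r := by
    intro he
    have h1 := hall (-1)
    rw [hμ] at h1
    have h3 : σ (((-1 : Fˣ)) : F) ^ r = 1 := by
      rw [Units.val_neg, Units.val_one, map_neg, map_one, he.neg_one_pow]
    rw [h3] at h1
    apply h2
    linear_combination -h1
  have : r % 2 = 1 := by
    rcases Nat.even_or_odd r with h | h
    · exact absurd h hodd
    · exact Nat.odd_iff.1 h
  omega

end Pool.Agent.W447.UT
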