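import Pool.Agent.W447.UT.Grp

set_option autoImplicit false

/-!
Pairs of a `U`-fixed vector and a `U`-invariant functional in a representation of `SL(2, F)`.
-/

namespace Pool.Agent.W447.UT

open Matrix

/-- the group `SL(2, F)` -/
abbrev SL (F : Type) [Field F] : Type := SpecialLinearGroup (Fin 2) F

variable {F : Type} [Field F] {K V : Type*} [Field K] [AddCommGroup V] [Module K V]

/-- a `U`-fixed vector and a `U`-invariant functional, both eigenvectors of the torus -/
structure Pair (ρ : Representation K (SL F) V) (μ ν : Fˣ →* Kˣ) (x : V) (ξ : V →ₗ[K] K) :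
    Prop where
  xu : ∀ b, ρ (u b) x = x
  xh : ∀ t, ρ (h t) x = (μ t : K) • x
  ξu : ∀ b y, ξ (ρ (u b) y) = ξ y
  ξh : ∀ t y, ξ (ρ (h t) y) = (ν t : K) * ξ y

namespace Pair

variable {ρ : Representation K (SL F) V} {μ ν : Fˣ →* Kˣ} {x : V} {ξ : V →ₗ[K] K}

theorem val_zero (P : Pair ρ μ ν x ξ) (hx : ξ x = 0) (g : SL F) (hg : g 1 0 = 0) :
    ξ (ρ g x) = 0 := by
  obtain ⟨t, b, rfl⟩ := bruhat_zero g hg
  rw [map_mul, Module.End.mul_apply, P.xu, P.ξh, hx, mul_zero]

theorem val_ne (P : Pair ρ μ ν x ξ) (g : SL F) (c : Fˣ) (hg : g 1 0 = c) :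
    ξ (ρ g x) = (ν (-c⁻¹) : K) * ξ (ρ w x) := by
  obtain ⟨a, b, rfl⟩ := bruhat_ne g c hg
  rw [map_mul, Module.End.mul_apply, P.ξu, map_mul, map_mul, Module.End.mul_apply,
    Module.End.mul_apply, P.xu, P.ξh]

theorem weight_one (P : Pair ρ μ ν x ξ) (hx : ξ x ≠ 0) (t : Fˣ) : μ t = ν t := by
  have h1 := P.ξh t x
  rw [P.xh, map_smul, smul_eq_mul] at h1
  exact Units.ext (mul_right_cancel₀ hx h1)

theorem weight_w (P : Pair ρ μ ν x ξ) (hx : ξ (ρ w x) ≠ 0) (t : Fˣ) : μ t = ν t⁻¹ := by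
  have h1 : ξ (ρ (w * h t) x) = (μ t : K) * ξ (ρ w x) := by
    rw [map_mul, Module.End.mul_apply, P.xh, map_smul, map_smul, smul_eq_mul]
  rw [w_h, map_mul, Module.End.mul_apply, P.ξh] at h1
  exact Units.ext (mul_right_cancel₀ hx h1.symm)

/-- the functional does not vanish on the translates in the big cell: many translates of `x` are
independent -/
theorem card_lt [Fintype F] (P : Pair ρ μ ν x ξ) [Module.Finite K V] (hx : ξ x ≠ 0)
    (hw : ξ (ρ w x) = 0) : Fintype.card F + 1 ≤ Module.finrank K V := by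
  classical
  have hv : ∀ g : SL F, g 1 0 ≠ 0 → ξ (ρ g x) = 0 := by
    intro g hg
    rw [P.val_ne g (Units.mk0 _ hg) rfl, hw, mul_zero]
  let e : Option F → SL F := fun o => o.elim 1 (fun s => u s * w)
  have he : ∀ i j, i ≠ j → ξ (ρ ((e i)⁻¹ * e j) x) = 0 := by
    intro i j hij
    apply hv
    rcases i with _ | s <;> rcases j with _ | s'
    · exact absurd rfl hij
    · simp [e, Matrix.mul_apply, Fin.sum_univ_two]
    · simp [e, Matrix.mul_apply, Fin.sum_univ_two, w_inv, ← u_neg]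
    · have hne : s ≠ s' := fun h => hij (by rw [h])
      have : (e (some s))⁻¹ * e (some s') = -1 * w * u (s' - s) * w := by
        simp only [e, Option.elim_some, _root_.mul_inv_rev, w_inv, ← u_neg, mul_assoc]
        rw [← mul_assoc (u (-s)), ← u_add, sub_eq_neg_add]
      rw [this]
      have h2 : s - s' ≠ 0 := sub_ne_zero.2 hne
      simpa [Matrix.mul_apply, Fin.sum_univ_two] using h2
  have hind : LinearIndependent K (fun i => ρ (e i) x) := by
    rw [Fintype.linearIndependent_iff]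
    intro c hc i
    have h1 := congrArg (fun y => ξ (ρ (e i)⁻¹ y)) hc
    simp only [map_sum, map_smul, map_zero] at h1
    rw [Finset.sum_eq_single i] at h1
    · rw [← Module.End.mul_apply, ← map_mul, inv_mul_cancel, map_one, Module.End.one_apply,
        smul_eq_mul] at h1
      exact (mul_eq_zero.1 h1).resolve_right hx
    · intro j _ hj
      rw [← Module.End.mul_apply, ← map_mul, he i j (Ne.symm hj), smul_zero]
    · intro hi
      exact absurd (Finset.mem_univ i) hi
  have := hind.fintype_card_le_finrank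
  rwa [Fintype.card_option] at this

/-- replacing `x` by `e_U w x` -/
theorem swap [Fintype F] (P : Pair ρ μ ν x ξ) (hx : ξ x ≠ 0) (hw : ξ (ρ w x) = 0) :
    ∃ x', Pair ρ μ⁻¹ ν x' ξ ∧ ξ (ρ w x') ≠ 0 := by
  classical
  have hv : ∀ g : SL F, g 1 0 ≠ 0 → ξ (ρ g x) = 0 := by
    intro g hg
    rw [P.val_ne g (Units.mk0 _ hg) rfl, hw, mul_zero]
  refine ⟨∑ s : F, ρ (u s * w) x, ⟨?_, ?_, P.ξu, P.ξh⟩, ?_⟩
  · intro b
    rw [map_sum]
    refine Fintype.sum_equiv (Equiv.addLeft b) _ _ ?_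
    intro s
    rw [← Module.End.mul_apply, ← map_mul, ← mul_assoc, ← u_add]
    rfl
  · intro t
    rw [map_sum, Finset.smul_sum]
    have hb : (t : F) ^ 2 ≠ 0 := pow_ne_zero _ t.ne_zero
    refine Fintype.sum_equiv (Equiv.mulLeft₀ ((t : F) ^ 2) hb) _ _ ?_
    intro s
    have hw' : h t * w = w * h t⁻¹ := by rw [w_h, inv_inv]
    rw [← Module.End.mul_apply, ← map_mul, ← mul_assoc, h_u, mul_assoc, hw',
      ← mul_assoc, map_mul, Module.End.mul_apply, P.xh, map_smul]
    simp
  · have hm : (-1 : SL F) = h (-1 : Fˣ) := h_neg_one.symm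
    have key : ∀ s : F, ξ (ρ w (ρ (u s * w) x)) = if s = 0 then (ν (-1) : K) * ξ x else 0 := by
      intro s
      rw [← Module.End.mul_apply, ← map_mul]
      split_ifs with hs
      · rw [hs, u_zero, one_mul, w_mul_w, hm, P.ξh]
      · apply hv
        simpa [Matrix.mul_apply, Fin.sum_univ_two] using hs
    rw [map_sum, map_sum]
    simp only [key]
    rw [Finset.sum_ite_eq' Finset.univ (0 : F), if_pos (Finset.mem_univ _)]
    exact mul_ne_zero (Units.ne_zero _) hx

end Pair

end Pool.Agent.W447.UT
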